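import Pool.Agent.Y655.TC.Root
import Pool.Agent.W468.CFTail
import Pool.Agent.W378.DC.MP
import Pool.Agent.Helper256.KM.Mertens

/-!
# Project TC (helper675): Mertens' theorem for the densities and the product of the `1 - gd B p`
-/

set_option autoImplicit false

namespace Pool.Agent.Y655.TC

open Finset Pool.Agent.Y675.TC

lemma sum_sq_le (A N : ℕ) (hA : 1 ≤ A) (hAN : A ≤ N) :
    ∑ p ∈ (Ioc A N).filter Nat.Prime, 4 / (p : ℝ) ^ 2 ≤ 4 / (A : ℝ) := by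
  have h1 := sum_Ioc_inv_sq_le_sub (α := ℝ) (show A ≠ 0 by omega) hAN
  have h2 : ∑ p ∈ (Ioc A N).filter Nat.Prime, 4 / (p : ℝ) ^ 2 ≤ ∑ p ∈ Ioc A N, 4 / (p : ℝ) ^ 2 :=
    sum_le_sum_of_subset_of_nonneg (filter_subset _ _) (fun p _ _ => by positivity)
  have h3 : ∑ p ∈ Ioc A N, 4 / (p : ℝ) ^ 2 = 4 * ∑ p ∈ Ioc A N, ((p : ℝ) ^ 2)⁻¹ := by
    rw [mul_sum]
    exact sum_congr rfl fun p _ => by rw [div_eq_mul_inv]
  have h4 : (0 : ℝ) ≤ (N : ℝ)⁻¹ := by positivity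
  rw [h3] at h2
  rw [div_eq_mul_inv]
  linarith

lemma not_sq_two : ¬ IsSquare (2 : ℤ) := by
  rintro ⟨r, hr⟩
  have h1 : r < 2 := by nlinarith
  have h2 : -2 < r := by nlinarith
  interval_cases r <;> omega

lemma not_sq_neg (B : ℤ) (hB : 0 < B) : ¬ IsSquare (-B) := by
  rintro ⟨r, hr⟩
  nlinarith [mul_self_nonneg r]

/-- the sum of the densities and the sum of the reciprocals -/
lemma main_diff (B : ℕ) (hB : 1 ≤ B) : ∃ n₁ : ℕ, 6 ≤ n₁ ∧ ∀ A : ℕ, n₁ ≤ A → ∀ N : ℕ, A ≤ N →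
    |∑ p ∈ (Ioc A N).filter Nat.Prime, gd B p -
      ∑ p ∈ (Ioc A N).filter Nat.Prime, (1 : ℝ) / p| ≤ 424 / Real.log ((A : ℝ) - 1) := by
  obtain ⟨n₀, hn₀⟩ := Pool.Agent.W468.ConjF.tail 1
  refine ⟨max (max n₀ ⌈Real.exp (8 * B)⌉₊) (2 * B + 6), by omega, fun A hA N hAN => ?_⟩
  have hA0 : n₀ ≤ A := ((le_max_left _ _).trans (le_max_left _ _)).trans hA
  have hA1 : ⌈Real.exp (8 * B)⌉₊ ≤ A := ((le_max_right _ _).trans (le_max_left _ _)).trans hA
  have hA2 : 2 * B + 6 ≤ A := (le_max_right _ _).trans hA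
  have hA2' : (6 : ℝ) ≤ A := by exact_mod_cast (by omega : 6 ≤ A)
  have hBr : (1 : ℝ) ≤ B := by exact_mod_cast hB
  have hlog : (8 : ℝ) * B ≤ Real.log A := by
    rw [Real.le_log_iff_exp_le (by linarith)]
    exact (Nat.le_ceil _).trans (by exact_mod_cast hA1)
  have t1 := hn₀ A hA0 2 not_sq_two (by
    rw [pow_one]
    norm_num
    linarith) N hAN
  have t2 := hn₀ A hA0 (-(B : ℤ)) (not_sq_neg B (by exact_mod_cast hB)) (by
    rw [pow_one, Int.natAbs_neg, Int.natAbs_natCast]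
    linarith) N hAN
  have t3 := hn₀ A hA0 (-(2 * B : ℤ)) (not_sq_neg (2 * B) (by omega)) (by
    rw [pow_one, Int.natAbs_neg, Int.natAbs_mul, Int.natAbs_natCast]
    push_cast
    norm_num
    linarith) N hAN
  have hsum : ∑ p ∈ (Ioc A N).filter Nat.Prime, gd B p -
      ∑ p ∈ (Ioc A N).filter Nat.Prime, (1 : ℝ) / p =
      ∑ p ∈ (Ioc A N).filter Nat.Prime, (gd B p - ((Rt B p).card : ℝ) / p) +
      ∑ p ∈ (Ioc A N).filter Nat.Prime, (jacobiSym 2 p : ℝ) / p +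
      ∑ p ∈ (Ioc A N).filter Nat.Prime, (jacobiSym (-(B : ℤ)) p : ℝ) / p +
      ∑ p ∈ (Ioc A N).filter Nat.Prime, (jacobiSym (-(2 * B : ℤ)) p : ℝ) / p := by
    rw [← sum_sub_distrib, ← sum_add_distrib, ← sum_add_distrib, ← sum_add_distrib]
    apply sum_congr rfl
    intro p hp
    rw [mem_filter, mem_Ioc] at hp
    have : Fact p.Prime := ⟨hp.2⟩
    have h1 := root_count B p (by omega) (fun h => by
      have := Nat.le_of_dvd (by omega) h
      omega)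
    have h2 : ((Rt B p).card : ℝ) = 1 + (jacobiSym 2 p : ℝ) + (jacobiSym (-(B : ℤ)) p : ℝ) +
        (jacobiSym (-(2 * B : ℤ)) p : ℝ) := by exact_mod_cast h1
    rw [h2]
    ring
  have t0 : |∑ p ∈ (Ioc A N).filter Nat.Prime, (gd B p - ((Rt B p).card : ℝ) / p)| ≤ 4 / A := by
    refine (abs_sum_le_sum_abs _ _).trans ((sum_le_sum fun p hp => ?_).trans
      (sum_sq_le A N (by omega) hAN))
    rw [mem_filter, mem_Ioc] at hp
    exact (gd_bounds B p hp.2 (by omega)).2.2.2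
  have hl : 0 < Real.log ((A : ℝ) - 1) := Real.log_pos (by linarith)
  have hl2 : Real.log ((A : ℝ) - 1) ≤ A := by
    have := Real.log_le_sub_one_of_pos (show (0 : ℝ) < (A : ℝ) - 1 by linarith)
    linarith
  have t4 : (4 : ℝ) / A ≤ 4 / Real.log ((A : ℝ) - 1) :=
    div_le_div_of_nonneg_left (by norm_num) hl hl2
  rw [hsum]
  have e : (424 : ℝ) / Real.log ((A : ℝ) - 1) = 4 / Real.log ((A : ℝ) - 1) +
      140 / Real.log ((A : ℝ) - 1) + 140 / Real.log ((A : ℝ) - 1) + 140 / Real.log ((A : ℝ) - 1) := by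
    ring
  rw [e]
  rw [abs_le] at *
  constructor <;> linarith [t0.1, t0.2, t1.1, t1.2, t2.1, t2.2, t3.1, t3.2]

theorem tM : S_MRS := by
  intro B hB ε η hε hη
  obtain ⟨n₁, hn6, hn₁⟩ := main_diff B hB
  obtain ⟨N₁, hN₁⟩ := Pool.Agent.W378.DC.MP ε (η / 2) hε (by linarith)
  set K : ℝ := max 1 (850 / η) with hK
  have hK1 : 1 ≤ K := le_max_left _ _
  have hK2 : 850 / η ≤ K := le_max_right _ _
  have hK3 : 850 ≤ η * K := by
    rw [div_le_iff₀ hη] at hK2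
    linarith
  have hev : ∀ᶠ N : ℕ in Filter.atTop, Real.exp K + n₁ + 3 ≤ (N : ℝ) ^ ε :=
    ((tendsto_rpow_atTop hε).comp tendsto_natCast_atTop_atTop).eventually_ge_atTop _
  obtain ⟨N₀, hN₀⟩ := Filter.eventually_atTop.1 hev
  refine ⟨max (max N₀ 2) N₁, fun N hN a b ha hab hb => ?_⟩
  have hN2 : 2 ≤ N := ((le_max_right _ _).trans (le_max_left _ _)).trans hN
  have hNe := hN₀ N (((le_max_left _ _).trans (le_max_left _ _)).trans hN)
  have hMP := hN₁ N ((le_max_right _ _).trans hN) a b ha hab hb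
  have hN1 : (1 : ℝ) < N := by exact_mod_cast (by omega : 1 < N)
  have hx1 : Real.exp K + n₁ + 3 ≤ (N : ℝ) ^ a :=
    hNe.trans (Real.rpow_le_rpow_of_exponent_le hN1.le ha)
  have hxy : (N : ℝ) ^ a ≤ (N : ℝ) ^ b := Real.rpow_le_rpow_of_exponent_le hN1.le hab
  have hfil : (Icc 1 N).filter (fun p : ℕ => p.Prime ∧ a ≤ Real.log p / Real.log N ∧
      Real.log p / Real.log N < b) = Pool.Agent.W23.DC.pr N a b := by
    unfold Pool.Agent.W23.DC.pr Pool.Agent.W23.DC.tt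
    congr
  rw [hfil]
  rw [Pool.Agent.W378.DC.TMP.pr_eq hN2 hb] at hMP ⊢
  have hAB : ⌈(N : ℝ) ^ a⌉₊ - 1 ≤ ⌈(N : ℝ) ^ b⌉₊ - 1 := Nat.sub_le_sub_right (Nat.ceil_mono hxy) 1
  have hAr : Real.exp K + n₁ + 2 ≤ ((⌈(N : ℝ) ^ a⌉₊ - 1 : ℕ) : ℝ) := by
    have h1 := Nat.le_ceil ((N : ℝ) ^ a)
    have h3 : (1 : ℝ) ≤ ⌈(N : ℝ) ^ a⌉₊ := by
      have := Real.exp_pos K
      have : (0 : ℝ) ≤ n₁ := Nat.cast_nonneg _
      linarith
    have h4 : 1 ≤ ⌈(N : ℝ) ^ a⌉₊ := by exact_mod_cast h3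
    rw [Nat.cast_sub h4]
    push_cast
    linarith
  set A := ⌈(N : ℝ) ^ a⌉₊ - 1 with hA
  set D := ⌈(N : ℝ) ^ b⌉₊ - 1 with hD
  have hexp := Real.exp_pos K
  have hn₁0 : (0 : ℝ) ≤ n₁ := Nat.cast_nonneg _
  have hAn : n₁ ≤ A := by
    have : (n₁ : ℝ) ≤ A := by linarith
    exact_mod_cast this
  have m1 := hn₁ A hAn D hAB
  have m2 := Pool.Agent.W378.DC.TMP.shift_prime (A := A) (B := D) (by omega) hAB
  rw [Finset.sum_sub_distrib] at m2
  have hA2 : (2 : ℝ) ≤ A := by linarith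
  have hlA : K ≤ Real.log ((A : ℝ) - 1) := by
    rw [Real.le_log_iff_exp_le (by linarith)]
    linarith
  have hlA0 : 0 < Real.log ((A : ℝ) - 1) := by linarith
  have m3 : 1 / (A : ℝ) ≤ 1 / Real.log ((A : ℝ) - 1) := by
    apply one_div_le_one_div_of_le hlA0
    have := Real.log_le_sub_one_of_pos (show (0 : ℝ) < (A : ℝ) - 1 by linarith)
    linarith
  have m4 : 425 / Real.log ((A : ℝ) - 1) ≤ η / 2 := by
    rw [div_le_iff₀ hlA0]
    nlinarith
  have m5 : 425 / Real.log ((A : ℝ) - 1) = 424 / Real.log ((A : ℝ) - 1) +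
      1 / Real.log ((A : ℝ) - 1) := by ring
  rw [abs_le] at *
  constructor <;> linarith [m1.1, m1.2, m2.1, m2.2, hMP.1, hMP.2]

lemma pt_bound (B p : ℕ) (hp : p.Prime) (h7 : 7 ≤ p) :
    Real.exp (-(gd B p + 12 * (4 / (p : ℝ) ^ 2))) ≤ 1 - gd B p := by
  obtain ⟨g0, g1, g2, -⟩ := gd_bounds B p hp (by omega)
  have hp7 : (7 : ℝ) ≤ p := by exact_mod_cast h7
  have hpos : (0 : ℝ) < (p : ℝ) ^ 2 := by positivity
  have h1 : gd B p ≤ 25 / 49 := by
    refine g1.trans ?_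
    rw [div_le_div_iff₀ hpos (by norm_num)]
    nlinarith [mul_nonneg (show (0 : ℝ) ≤ (p : ℝ) - 7 by linarith)
      (show (0 : ℝ) ≤ 25 * (p : ℝ) - 21 by linarith)]
  set x := gd B p with hx
  have hx1 : 0 < 1 - x := by linarith
  have h2 : 1 - (1 - x)⁻¹ ≤ Real.log (1 - x) := Real.one_sub_inv_le_log_of_pos hx1
  have h3 : -(x + 3 * x ^ 2) ≤ 1 - (1 - x)⁻¹ := by
    have h4 : (1 - x)⁻¹ ≤ 1 + (x + 3 * x ^ 2) := by
      rw [inv_le_iff_one_le_mul₀ hx1]
      nlinarith [mul_nonneg (sq_nonneg x) (show (0 : ℝ) ≤ 2 - 3 * x by linarith)]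
    linarith
  have h5 : x ^ 2 ≤ (4 / (p : ℝ)) ^ 2 := pow_le_pow_left₀ g0 g2 2
  have h6 : 3 * (4 / (p : ℝ)) ^ 2 = 12 * (4 / (p : ℝ) ^ 2) := by ring
  rw [← Real.le_log_iff_exp_le hx1]
  linarith

theorem tP : S_PRD := by
  intro B hB
  obtain ⟨n₁, hn6, hn₁⟩ := main_diff B hB
  obtain ⟨C₂, hC₂⟩ := Pool.Agent.Helper256.KM.mertens_inv
  set C : ℝ := n₁ + |C₂| + 424 / Real.log ((n₁ : ℝ) - 1) with hC
  have hn6r : (6 : ℝ) ≤ n₁ := by exact_mod_cast hn6
  have hl0 : 0 < Real.log ((n₁ : ℝ) - 1) := Real.log_pos (by linarith)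
  have hq0 : 0 ≤ 424 / Real.log ((n₁ : ℝ) - 1) := by positivity
  have hC20 := abs_nonneg C₂
  have hC2 := le_abs_self C₂
  refine ⟨Real.exp (-(C + 10)), Real.exp_pos _, fun N z hN hz => ?_⟩
  have hN3 : (3 : ℝ) ≤ N := by exact_mod_cast hN
  have hlogN : 1 < Real.log N := by
    rw [Real.lt_log_iff_exp_lt (by linarith)]
    have := Real.exp_one_lt_d9
    linarith
  have hllN : 0 < Real.log (Real.log N) := Real.log_pos hlogN
  have hgd1 : ∀ p ∈ (Ioc 5 N).filter Nat.Prime, gd B p ≤ 1 := by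
    intro p hp
    rw [mem_filter, mem_Ioc] at hp
    obtain ⟨g0, g1, g2, -⟩ := gd_bounds B p hp.2 (by omega)
    refine g2.trans ?_
    have : (4 : ℝ) ≤ p := by exact_mod_cast (by omega : 4 ≤ p)
    rw [div_le_one (by linarith)]
    exact this
  have hgd0 : ∀ p, p.Prime → 5 < p → 0 ≤ gd B p := fun p hp h5 =>
    (gd_bounds B p hp (by omega)).1
  -- small ranges
  have hsmall : ∀ M : ℕ, M ≤ N → ∑ p ∈ (Ioc 5 M).filter Nat.Prime, gd B p ≤ M := by
    intro M hM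
    have h1 : ∑ p ∈ (Ioc 5 M).filter Nat.Prime, gd B p ≤ ∑ p ∈ (Ioc 5 M).filter Nat.Prime, (1 : ℝ) := by
      apply sum_le_sum
      intro p hp
      apply hgd1 p
      rw [mem_filter, mem_Ioc] at hp ⊢
      exact ⟨⟨hp.1.1, hp.1.2.trans hM⟩, hp.2⟩
    refine h1.trans ?_
    rw [sum_const, nsmul_eq_mul, mul_one]
    have h2 : ((Ioc 5 M).filter Nat.Prime).card ≤ M :=
      (card_filter_le _ _).trans (by rw [Nat.card_Ioc]; omega)
    exact_mod_cast h2
  have hS : ∑ p ∈ (Ioc 5 N).filter Nat.Prime, gd B p ≤ Real.log (Real.log N) + C := by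
    rcases le_total N n₁ with h | h
    · have h1 := hsmall N le_rfl
      have h2 : (N : ℝ) ≤ n₁ := by exact_mod_cast h
      linarith
    · have hsplit : (Ioc 5 N).filter Nat.Prime =
          (Ioc 5 n₁).filter Nat.Prime ∪ (Ioc n₁ N).filter Nat.Prime := by
        rw [← filter_union, Ioc_union_Ioc_eq_Ioc (by omega) h]
      have hdisj : Disjoint ((Ioc 5 n₁).filter Nat.Prime) ((Ioc n₁ N).filter Nat.Prime) := by
        rw [Finset.disjoint_left]
        intro p hp hq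
        rw [mem_filter, mem_Ioc] at hp hq
        omega
      rw [hsplit, sum_union hdisj]
      have h1 := hsmall n₁ h
      have h2 := abs_le.1 (hn₁ n₁ le_rfl N h)
      have h3 := abs_le.1 (hC₂ N hN)
      have h4 : ∑ p ∈ (Ioc n₁ N).filter Nat.Prime, (1 : ℝ) / p ≤
          ∑ p ∈ (Icc 1 N).filter Nat.Prime, (1 : ℝ) / p := by
        apply sum_le_sum_of_subset_of_nonneg
        · intro p hp
          rw [mem_filter, mem_Ioc] at hp
          rw [mem_filter, mem_Icc]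
          exact ⟨⟨by omega, hp.1.2⟩, hp.2⟩
        · intro p _ _
          positivity
      linarith [h2.1, h2.2, h3.1, h3.2]
  have hQ : ∑ p ∈ (Ioc 5 N).filter Nat.Prime, 12 * (4 / (p : ℝ) ^ 2) ≤ 10 := by
    rw [← mul_sum]
    rcases le_total 5 N with h | h
    · have := sum_sq_le 5 N (by norm_num) h
      push_cast at this
      linarith
    · rw [Ioc_eq_empty (by omega)]
      simp
  have hprod : Real.exp (-(∑ p ∈ (Ioc z N).filter Nat.Prime,
      (gd B p + 12 * (4 / (p : ℝ) ^ 2)))) ≤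
      ∏ p ∈ (Ioc z N).filter Nat.Prime, (1 - gd B p) := by
    rw [← sum_neg_distrib, Real.exp_sum]
    apply prod_le_prod
    · intro p _
      exact (Real.exp_pos _).le
    · intro p hp
      rw [mem_filter, mem_Ioc] at hp
      refine pt_bound B p hp.2 ?_
      have h6 : p ≠ 6 := by
        rintro rfl
        exact absurd hp.2 (by norm_num)
      omega
  have hsub : ∑ p ∈ (Ioc z N).filter Nat.Prime, (gd B p + 12 * (4 / (p : ℝ) ^ 2)) ≤
      ∑ p ∈ (Ioc 5 N).filter Nat.Prime, (gd B p + 12 * (4 / (p : ℝ) ^ 2)) := by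
    apply sum_le_sum_of_subset_of_nonneg
    · intro p hp
      rw [mem_filter, mem_Ioc] at hp ⊢
      exact ⟨⟨by omega, hp.1.2⟩, hp.2⟩
    · intro p hp _
      rw [mem_filter, mem_Ioc] at hp
      have := hgd0 p hp.2 (by omega)
      positivity
  rw [sum_add_distrib (f := fun p : ℕ => gd B p)] at hsub
  refine le_trans ?_ hprod
  have e : Real.exp (-(C + 10)) / Real.log N = Real.exp (-(C + 10) - Real.log (Real.log N)) := by
    rw [Real.exp_sub, Real.exp_log (by linarith)]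
  rw [e, Real.exp_le_exp]
  rw [sum_add_distrib] at hsub ⊢
  linarith

end Pool.Agent.Y655.TC
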