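import Pool.Agent.Y675.TC.Stm

/-!
# Project TC (helper675): the number of roots of the quartic form modulo `p`
-/

set_option autoImplicit false

namespace Pool.Agent.Y655.TC

open Finset Pool.Agent.Y675.TC

/-- the roots in `ZMod p` -/
def RZ (B p : ℕ) [Fact p.Prime] : Finset (ZMod p) :=
  univ.filter (fun t : ZMod p => t ^ 4 + 6 * (B : ZMod p) * t ^ 2 + (B : ZMod p) ^ 2 = 0)

lemma card_Rt (B p : ℕ) [Fact p.Prime] : (Rt B p).card = (RZ B p).card := by
  have key : ∀ t : ℕ, (p : ℤ) ∣ FF B 1 t ↔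
      ((t : ZMod p)) ^ 4 + 6 * (B : ZMod p) * (t : ZMod p) ^ 2 + (B : ZMod p) ^ 2 = 0 := by
    intro t
    rw [← ZMod.intCast_zmod_eq_zero_iff_dvd]
    unfold FF
    push_cast
    simp only [mul_one]
  apply Finset.card_bij (fun (t : ℕ) _ => (t : ZMod p))
  · intro t ht
    unfold Rt at ht
    rw [mem_filter] at ht
    unfold RZ
    rw [mem_filter]
    exact ⟨mem_univ _, (key t).1 ht.2⟩
  · intro t ht s hs h
    unfold Rt at ht hs
    rw [mem_filter, mem_range] at ht hs
    rw [ZMod.natCast_eq_natCast_iff'] at h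
    rwa [Nat.mod_eq_of_lt ht.1, Nat.mod_eq_of_lt hs.1] at h
  · intro x hx
    unfold RZ at hx
    rw [mem_filter] at hx
    refine ⟨x.val, ?_, ZMod.natCast_zmod_val x⟩
    unfold Rt
    rw [mem_filter, mem_range]
    refine ⟨ZMod.val_lt x, (key _).2 ?_⟩
    rw [ZMod.natCast_zmod_val]
    exact hx.2

/-- modulo a divisor of `B` there is one root -/
lemma card_of_dvd (B p : ℕ) [Fact p.Prime] (h : p ∣ B) : (Rt B p).card ≤ 1 := by
  rw [card_Rt, Finset.card_le_one]
  have hB : (B : ZMod p) = 0 := (ZMod.natCast_eq_zero_iff B p).2 h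
  have h0 : ∀ x ∈ RZ B p, x = 0 := by
    intro x hx
    unfold RZ at hx
    rw [mem_filter, hB] at hx
    have h1 : x ^ 4 = 0 := by linear_combination hx.2
    exact pow_eq_zero_iff (by norm_num) |>.1 h1
  intro a ha b hb
  rw [h0 a ha, h0 b hb]

lemma no_root (B p : ℕ) [Fact p.Prime] (hB : (B : ZMod p) ≠ 0)
    (h : ¬ (IsSquare (2 : ZMod p) ∧ IsSquare (-(B : ZMod p)))) (h2 : (2 : ZMod p) ≠ 0) :
    (RZ B p).card = 0 := by
  rw [Finset.card_eq_zero, Finset.eq_empty_iff_forall_notMem]
  intro t ht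
  unfold RZ at ht
  rw [mem_filter] at ht
  apply h
  have h1 : (t ^ 2 + 3 * (B : ZMod p)) ^ 2 = 8 * (B : ZMod p) ^ 2 := by linear_combination ht.2
  have hsq : IsSquare (2 : ZMod p) := by
    refine ⟨(t ^ 2 + 3 * (B : ZMod p)) / (2 * B), ?_⟩
    field_simp
    linear_combination (-1 : ZMod p) * h1
  refine ⟨hsq, ?_⟩
  obtain ⟨u, hu⟩ := hsq
  have h3 : (t ^ 2 + 3 * (B : ZMod p) - 2 * u * B) * (t ^ 2 + 3 * (B : ZMod p) + 2 * u * B) = 0 := by
    linear_combination h1 + 4 * (B : ZMod p) ^ 2 * hu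
  have hu1 : (1 - u) * (1 + u) = -1 := by linear_combination hu
  have hm : (1 - u) ≠ 0 := by
    intro h0
    rw [h0, zero_mul] at hu1
    have : (1 : ZMod p) = 0 := by linear_combination hu1
    exact one_ne_zero this
  have hp' : (1 + u) ≠ 0 := by
    intro h0
    rw [h0, mul_zero] at hu1
    have : (1 : ZMod p) = 0 := by linear_combination hu1
    exact one_ne_zero this
  rcases mul_eq_zero.1 h3 with h4 | h4
  · refine ⟨t / (1 - u), ?_⟩
    field_simp
    linear_combination -h4 + (B : ZMod p) * hu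
  · refine ⟨t / (1 + u), ?_⟩
    field_simp
    linear_combination -h4 + (B : ZMod p) * hu

lemma four_roots (B p : ℕ) [Fact p.Prime] (hB : (B : ZMod p) ≠ 0) {u w : ZMod p}
    (hu : (2 : ZMod p) = u * u) (hw : -(B : ZMod p) = w * w) (h2 : (2 : ZMod p) ≠ 0) :
    (RZ B p).card = 4 := by
  have hu1 : (1 - u) * (1 + u) = -1 := by linear_combination hu
  have hm : (1 - u) ≠ 0 := by
    intro h0
    rw [h0, zero_mul] at hu1
    have : (1 : ZMod p) = 0 := by linear_combination hu1
    exact one_ne_zero this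
  have hp' : (1 + u) ≠ 0 := by
    intro h0
    rw [h0, mul_zero] at hu1
    have : (1 : ZMod p) = 0 := by linear_combination hu1
    exact one_ne_zero this
  have hw0 : w ≠ 0 := by
    rintro rfl
    apply hB
    linear_combination -hw
  have hu0 : u ≠ 0 := by
    rintro rfl
    apply h2
    linear_combination hu
  have heq : RZ B p = {(1 + u) * w, -((1 + u) * w), (1 - u) * w, -((1 - u) * w)} := by
    ext t
    unfold RZ
    rw [mem_filter]
    simp only [mem_univ, true_and, mem_insert, mem_singleton]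
    constructor
    · intro ht
      have h3 : (t - (1 + u) * w) * ((t + (1 + u) * w) * ((t - (1 - u) * w) * (t + (1 - u) * w))) = 0 := by
        have e : (t - (1 + u) * w) * ((t + (1 + u) * w) * ((t - (1 - u) * w) * (t + (1 - u) * w))) =
            t ^ 4 + 6 * (B : ZMod p) * t ^ 2 + (B : ZMod p) ^ 2 := by
          have hB' : (B : ZMod p) = - (w * w) := by linear_combination -hw
          rw [hB']
          linear_combination (2 * w ^ 2 * t ^ 2 - u ^ 2 * w ^ 4) * hu
        rw [e, ht]
      rcases mul_eq_zero.1 h3 with h4 | h4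
      · left; linear_combination h4
      · rcases mul_eq_zero.1 h4 with h5 | h5
        · right; left; linear_combination h5
        · rcases mul_eq_zero.1 h5 with h6 | h6
          · right; right; left; linear_combination h6
          · right; right; right; linear_combination h6
    · have hB' : (B : ZMod p) = - (w * w) := by linear_combination -hw
      have e : ∀ t : ZMod p, (t - (1 + u) * w) * ((t + (1 + u) * w) * ((t - (1 - u) * w) * (t + (1 - u) * w))) =
            t ^ 4 + 6 * (B : ZMod p) * t ^ 2 + (B : ZMod p) ^ 2 := by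
        intro t
        rw [hB']
        linear_combination (2 * w ^ 2 * t ^ 2 - u ^ 2 * w ^ 4) * hu
      rintro (h | h | h | h) <;> rw [← e, h] <;> ring
  rw [heq]
  have h2w : (2 : ZMod p) * w ≠ 0 := mul_ne_zero h2 hw0
  rw [Finset.card_insert_of_notMem, Finset.card_insert_of_notMem, Finset.card_insert_of_notMem,
    Finset.card_singleton]
  · rw [mem_singleton]
    intro h
    apply mul_ne_zero h2w hm
    linear_combination h
  · rw [mem_insert, mem_singleton]
    rintro (h | h)
    · apply h2w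
      linear_combination -h
    · apply mul_ne_zero h2w hu0
      linear_combination -h
  · rw [mem_insert, mem_insert, mem_singleton]
    rintro (h | h | h)
    · apply mul_ne_zero h2w hp'
      linear_combination h
    · apply mul_ne_zero h2w hu0
      linear_combination h
    · apply h2w
      linear_combination h

/-- the number of roots -/
theorem root_count (B p : ℕ) [Fact p.Prime] (h2 : p ≠ 2) (hB : ¬ p ∣ B) :
    ((Rt B p).card : ℤ) = 1 + jacobiSym 2 p + jacobiSym (-(B : ℤ)) p + jacobiSym (-(2 * B : ℤ)) p := by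
  have hp : p.Prime := Fact.out
  have hB0 : (B : ZMod p) ≠ 0 := fun h => hB ((ZMod.natCast_eq_zero_iff B p).1 h)
  have h20 : (2 : ZMod p) ≠ 0 := by
    intro h
    have h' : ((2 : ℕ) : ZMod p) = 0 := by exact_mod_cast h
    rw [ZMod.natCast_eq_zero_iff] at h'
    have := Nat.le_of_dvd (by norm_num) h'
    have := hp.two_le
    omega
  have hmul : jacobiSym (-(2 * B : ℤ)) p = jacobiSym 2 p * jacobiSym (-(B : ℤ)) p := by
    rw [← jacobiSym.mul_left]
    congr 1
    ring
  rw [hmul, card_Rt]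
  have e1 : jacobiSym 2 p = legendreSym p 2 := (jacobiSym.legendreSym.to_jacobiSym p 2).symm
  have e2 : jacobiSym (-(B : ℤ)) p = legendreSym p (-(B : ℤ)) :=
    (jacobiSym.legendreSym.to_jacobiSym p _).symm
  have h20' : ((2 : ℤ) : ZMod p) ≠ 0 := by push_cast; exact h20
  have hB0' : ((-(B : ℤ) : ℤ) : ZMod p) ≠ 0 := by push_cast; exact neg_ne_zero.2 hB0
  rw [e1, e2]
  by_cases hs : IsSquare (2 : ZMod p)
  · by_cases hb : IsSquare (-(B : ZMod p))
    · have l1 : legendreSym p 2 = 1 := (legendreSym.eq_one_iff p h20').2 (by push_cast; exact hs)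
      have l2 : legendreSym p (-(B : ℤ)) = 1 :=
        (legendreSym.eq_one_iff p hB0').2 (by push_cast; exact hb)
      obtain ⟨u, hu⟩ := hs
      obtain ⟨w, hw⟩ := hb
      rw [four_roots B p hB0 hu hw h20, l1, l2]
      norm_num
    · have l2 : legendreSym p (-(B : ℤ)) = -1 :=
        (legendreSym.eq_neg_one_iff p).2 (by push_cast; exact hb)
      rw [no_root B p hB0 (fun h => hb h.2) h20, l2]
      push_cast
      ring
  · have l1 : legendreSym p 2 = -1 := (legendreSym.eq_neg_one_iff p).2 (by push_cast; exact hs)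
    rw [no_root B p hB0 (fun h => hs h.1) h20, l1]
    push_cast
    ring

lemma card_le_four (B p : ℕ) (hp : p.Prime) (h2 : p ≠ 2) : (Rt B p).card ≤ 4 := by
  have : Fact p.Prime := ⟨hp⟩
  by_cases hB : p ∣ B
  · exact (card_of_dvd B p hB).trans (by norm_num)
  · have h := root_count B p h2 hB
    have hb : ∀ D : ℤ, jacobiSym D p ≤ 1 := by
      intro D
      rcases jacobiSym.trichotomy D p with h | h | h <;> rw [h] <;> norm_num
    have h3 := hb 2
    have h4 := hb (-(B : ℤ))
    have h5 := hb (-(2 * B : ℤ))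
    omega

/-- the density and the number of roots -/
lemma gd_bounds (B p : ℕ) (hp : p.Prime) (h2 : p ≠ 2) :
    0 ≤ gd B p ∧ gd B p ≤ (4 * (p : ℝ) - 3) / (p : ℝ) ^ 2 ∧ gd B p ≤ 4 / p ∧
    |gd B p - ((Rt B p).card : ℝ) / p| ≤ 4 / (p : ℝ) ^ 2 := by
  have hp2 : (2 : ℝ) ≤ p := by exact_mod_cast hp.two_le
  have hc := card_le_four B p hp h2
  have hc' : ((Rt B p).card : ℝ) ≤ 4 := by exact_mod_cast hc
  have hc0 : (0 : ℝ) ≤ ((Rt B p).card : ℝ) := Nat.cast_nonneg _
  have hpos : (0 : ℝ) < (p : ℝ) ^ 2 := by positivity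
  unfold gd
  refine ⟨by apply div_nonneg _ hpos.le; nlinarith, ?_, ?_, ?_⟩
  · apply div_le_div_of_nonneg_right _ hpos.le
    nlinarith
  · rw [div_le_div_iff₀ hpos (by linarith)]
    have h1 : ((Rt B p).card : ℝ) * ((p : ℝ) - 1) ≤ 4 * ((p : ℝ) - 1) :=
      mul_le_mul_of_nonneg_right hc' (by linarith)
    have h3 : (1 + ((Rt B p).card : ℝ) * ((p : ℝ) - 1)) * p ≤ (4 * (p : ℝ)) * p :=
      mul_le_mul_of_nonneg_right (by linarith) (by linarith)
    linarith [sq (p : ℝ)]
  · have e : (1 + ((Rt B p).card : ℝ) * ((p : ℝ) - 1)) / (p : ℝ) ^ 2 - ((Rt B p).card : ℝ) / p =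
        (1 - ((Rt B p).card : ℝ)) / (p : ℝ) ^ 2 := by
      field_simp
      ring
    rw [e, abs_div, abs_of_pos hpos]
    apply div_le_div_of_nonneg_right _ hpos.le
    rw [abs_le]
    constructor <;> linarith

end Pool.Agent.Y655.TC
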